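import Mathlib

/-!
Unipotent groups of class two given by a bilinear map with integral structure constants, in
coordinates.
-/

set_option autoImplicit false

universe u

namespace Pool.Agent.Y98.OO

/-- structure constants of a bilinear map on `n`-space with components indexed by `κ` -/
abbrev St (n : ℕ) (κ : Type) : Type := κ → Fin n → Fin n → ℤ

variable {n : ℕ} {κ : Type}

/-- the bilinear map -/
def bf (β : St n κ) {R : Type u} [CommRing R] (x y : Fin n → R) (k : κ) : R :=
  ∑ i, ∑ j, (β k i j : R) * (x i * y j)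

section

variable (β : St n κ) {R : Type u} [CommRing R]

lemma bf_add_left (x x' y : Fin n → R) (k : κ) :
    bf β (x + x') y k = bf β x y k + bf β x' y k := by
  unfold bf
  rw [← Finset.sum_add_distrib]
  refine Finset.sum_congr rfl fun i _ => ?_
  rw [← Finset.sum_add_distrib]
  refine Finset.sum_congr rfl fun j _ => ?_
  rw [Pi.add_apply]
  ring

lemma bf_add_right (x y y' : Fin n → R) (k : κ) :
    bf β x (y + y') k = bf β x y k + bf β x y' k := by
  unfold bf
  rw [← Finset.sum_add_distrib]
  refine Finset.sum_congr rfl fun i _ => ?_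
  rw [← Finset.sum_add_distrib]
  refine Finset.sum_congr rfl fun j _ => ?_
  rw [Pi.add_apply]
  ring

lemma bf_smul_left (t : R) (x y : Fin n → R) (k : κ) : bf β (t • x) y k = t * bf β x y k := by
  unfold bf
  rw [Finset.mul_sum]
  refine Finset.sum_congr rfl fun i _ => ?_
  rw [Finset.mul_sum]
  refine Finset.sum_congr rfl fun j _ => ?_
  rw [Pi.smul_apply, smul_eq_mul]
  ring

lemma bf_smul_right (t : R) (x y : Fin n → R) (k : κ) : bf β x (t • y) k = t * bf β x y k := by
  unfold bf
  rw [Finset.mul_sum]
  refine Finset.sum_congr rfl fun i _ => ?_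
  rw [Finset.mul_sum]
  refine Finset.sum_congr rfl fun j _ => ?_
  rw [Pi.smul_apply, smul_eq_mul]
  ring

lemma bf_zero_left (y : Fin n → R) (k : κ) : bf β 0 y k = 0 := by
  have := bf_smul_left β 0 0 y k
  rwa [zero_smul, zero_mul] at this

lemma bf_zero_right (x : Fin n → R) (k : κ) : bf β x 0 k = 0 := by
  have := bf_smul_right β 0 x 0 k
  rwa [zero_smul, zero_mul] at this

lemma bf_neg_left (x y : Fin n → R) (k : κ) : bf β (-x) y k = -bf β x y k := by
  have := bf_smul_left β (-1) x y k
  rwa [neg_one_smul, neg_one_mul] at this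

lemma bf_neg_right (x y : Fin n → R) (k : κ) : bf β x (-y) k = -bf β x y k := by
  have := bf_smul_right β (-1) x y k
  rwa [neg_one_smul, neg_one_mul] at this

lemma bf_map {S : Type u} [CommRing S] (f : R →+* S) (x y : Fin n → R) (k : κ) :
    f (bf β x y k) = bf β (fun i => f (x i)) (fun i => f (y i)) k := by
  unfold bf
  rw [map_sum]
  refine Finset.sum_congr rfl fun i _ => ?_
  rw [map_sum]
  refine Finset.sum_congr rfl fun j _ => ?_
  rw [map_mul, map_mul, map_intCast]

end

/-- Points over `R` of the group of class two. -/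
@[ext] structure FR (β : St n κ) (R : Type u) where
  a : Fin n → R
  p : κ → R

namespace FR

variable {β : St n κ} {R : Type u} [CommRing R]

instance : Mul (FR β R) := ⟨fun x y => ⟨x.a + y.a, fun k => x.p k + y.p k + bf β x.a y.a k⟩⟩

instance : One (FR β R) := ⟨⟨0, 0⟩⟩

instance : Inv (FR β R) := ⟨fun x => ⟨-x.a, fun k => -x.p k + bf β x.a x.a k⟩⟩

lemma mul_a (x y : FR β R) : (x * y).a = x.a + y.a := rfl
lemma mul_p (x y : FR β R) : (x * y).p = fun k => x.p k + y.p k + bf β x.a y.a k := rfl
lemma one_a : (1 : FR β R).a = 0 := rfl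
lemma one_p : (1 : FR β R).p = 0 := rfl
lemma inv_a (x : FR β R) : (x⁻¹).a = -x.a := rfl
lemma inv_p (x : FR β R) : (x⁻¹).p = fun k => -x.p k + bf β x.a x.a k := rfl

instance : Group (FR β R) where
  mul_assoc x y z := by
    apply FR.ext
    · rw [mul_a, mul_a, mul_a, mul_a, add_assoc]
    · funext k
      rw [mul_p, mul_p, mul_p, mul_p, mul_a, mul_a]
      simp only
      rw [bf_add_left, bf_add_right]
      ring
  one_mul x := by
    apply FR.ext
    · rw [mul_a, one_a, zero_add]
    · funext k
      rw [mul_p]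
      simp only [one_p, one_a, Pi.zero_apply, bf_zero_left, zero_add, add_zero]
  mul_one x := by
    apply FR.ext
    · rw [mul_a, one_a, add_zero]
    · funext k
      rw [mul_p]
      simp only [one_p, one_a, Pi.zero_apply, bf_zero_right, add_zero]
  inv_mul_cancel x := by
    apply FR.ext
    · rw [mul_a, inv_a, one_a, neg_add_cancel]
    · funext k
      rw [mul_p, one_p, inv_a, inv_p]
      simp only [Pi.zero_apply, bf_neg_left]
      ring

/-- Functoriality in the coefficient ring. -/
def map {S : Type u} [CommRing S] (f : R →+* S) : FR β R →* FR β S where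
  toFun x := ⟨fun i => f (x.a i), fun k => f (x.p k)⟩
  map_one' := by
    apply FR.ext
    · funext i
      exact map_zero f
    · funext k
      exact map_zero f
  map_mul' x y := by
    apply FR.ext
    · funext i
      exact map_add f _ _
    · funext k
      change f (x.p k + y.p k + bf β x.a y.a k) = f (x.p k) + f (y.p k) + _
      rw [map_add, map_add, bf_map]

/-- The central subgroup `a = 0`. -/
def zc (β : St n κ) (R : Type u) [CommRing R] : Subgroup (FR β R) where
  carrier := {x | x.a = 0}
  mul_mem' := by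
    intro x y hx hy
    change x.a + y.a = 0
    rw [show x.a = 0 from hx, show y.a = 0 from hy, add_zero]
  one_mem' := rfl
  inv_mem' := by
    intro x hx
    change -x.a = 0
    rw [show x.a = 0 from hx, neg_zero]

lemma mem_zc {x : FR β R} : x ∈ zc β R ↔ x.a = 0 := Iff.rfl

lemma zc_comm {z : FR β R} (hz : z ∈ zc β R) (x : FR β R) : z * x = x * z := by
  rw [mem_zc] at hz
  apply FR.ext
  · rw [mul_a, mul_a, add_comm]
  · funext k
    rw [mul_p, mul_p]
    simp only [hz, bf_zero_left, bf_zero_right]
    ring

lemma comm_mem (x y : FR β R) : x * y * x⁻¹ * y⁻¹ ∈ zc β R := by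
  rw [mem_zc, mul_a, mul_a, mul_a, inv_a, inv_a]
  abel

/-- commuting elements -/
lemma comm_iff (x y : FR β R) : x * y = y * x ↔ ∀ k, bf β x.a y.a k = bf β y.a x.a k := by
  constructor
  · intro h k
    have h1 := congrFun (congrArg FR.p h) k
    rw [mul_p, mul_p] at h1
    simp only at h1
    linear_combination h1
  · intro h
    apply FR.ext
    · rw [mul_a, mul_a, add_comm]
    · funext k
      rw [mul_p, mul_p]
      simp only
      rw [h k]
      ring

end FR

/-- A subspace on which the commutator form vanishes. -/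
def Isot (β : St n κ) {K : Type u} [Field K] (V : Submodule K (Fin n → K)) : Prop :=
  ∀ x ∈ V, ∀ y ∈ V, ∀ k, bf β x y k = bf β y x k

lemma isot_span (β : St n κ) {K : Type u} [Field K] {S : Set (Fin n → K)}
    (hS : ∀ x ∈ S, ∀ y ∈ S, ∀ k, bf β x y k = bf β y x k) : Isot β (Submodule.span K S) := by
  intro x hx y hy k
  induction hx using Submodule.span_induction with
  | mem x hx =>
    induction hy using Submodule.span_induction with
    | mem y hy => exact hS x hx y hy k
    | zero => rw [bf_zero_left, bf_zero_right]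
    | add y y' _ _ h h' => rw [bf_add_left, bf_add_right, h, h']
    | smul t y _ h => rw [bf_smul_left, bf_smul_right, h]
  | zero => rw [bf_zero_left, bf_zero_right]
  | add x x' _ _ h h' => rw [bf_add_left, bf_add_right, h, h']
  | smul t x _ h => rw [bf_smul_left, bf_smul_right, h]

/-- The commutator condition: `n`-space is not the sum of two isotropic subspaces. -/
def NoSplit (β : St n κ) (K : Type u) [Field K] : Prop :=
  ∀ V W : Submodule K (Fin n → K), Isot β V → Isot β W → V ⊔ W ≠ ⊤

open FR in
/-- a commutative subgroup which contains the central subgroup has no complement -/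
theorem no_complement {β : St n κ} {K : Type u} [Field K] (hβ : NoSplit β K) {R : Type u} [CommRing R]
    (e : R ≃+* K) (H L : Subgroup (FR β R)) (hz : zc β R ≤ H) (hcomm : ∀ a ∈ H, ∀ b ∈ H, a * b = b * a)
    (h1 : ∀ g : FR β R, ∃ h ∈ H, ∃ k ∈ L, g = h * k) (h2 : ∀ k ∈ L, k ∈ H → k = 1) : False := by
  have hLc : ∀ a ∈ L, ∀ b ∈ L, a * b = b * a := by
    intro a ha b hb
    have h3 : a * b * a⁻¹ * b⁻¹ ∈ L := L.mul_mem (L.mul_mem (L.mul_mem ha hb) (L.inv_mem ha)) (L.inv_mem hb)
    have h4 := h2 _ h3 (hz (comm_mem a b))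
    have h5 : a * b = (a * b * a⁻¹ * b⁻¹) * (b * a) := by group
    rw [h5, h4, one_mul]
  have key : ∀ M : Subgroup (FR β R), (∀ a ∈ M, ∀ b ∈ M, a * b = b * a) →
      Isot β (Submodule.span K {v : Fin n → K | ∃ x ∈ M, v = fun i => e (x.a i)}) := by
    intro M hM
    apply isot_span
    rintro _ ⟨x, hx, rfl⟩ _ ⟨y, hy, rfl⟩ k
    have h3 := (comm_iff x y).1 (hM x hx y hy) k
    have h4 := congrArg e h3
    have h5 := bf_map β (e : R →+* K) x.a y.a k
    have h6 := bf_map β (e : R →+* K) y.a x.a k
    exact h5.symm.trans (h4.trans h6)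
  apply hβ _ _ (key H hcomm) (key L hLc)
  rw [eq_top_iff]
  intro v _
  obtain ⟨h, hh, k, hk, hg⟩ := h1 ⟨fun i => e.symm (v i), 0⟩
  have h3 : v = (fun i => e (h.a i)) + fun i => e (k.a i) := by
    have h4 := congrArg FR.a hg
    rw [mul_a] at h4
    funext i
    have h5 := congrFun h4 i
    simp only [Pi.add_apply] at h5 ⊢
    rw [← map_add, ← h5, RingEquiv.apply_symm_apply]
  rw [h3]
  exact Submodule.add_mem_sup (Submodule.subset_span ⟨h, hh, rfl⟩) (Submodule.subset_span ⟨k, hk, rfl⟩)

end Pool.Agent.Y98.OO
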