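import Mathlib
import Pool.Agent.Y98.OO.Grp
import Pool.Agent.H707R3.OpenOrbitDefs
import Pool.Agent.H707R3.LocUnip

/-!
The groups of class two as group schemes, with underlying scheme an affine space, and their points
are unipotent.
-/

set_option autoImplicit false

universe u

open CategoryTheory AlgebraicGeometry MonoidalCategory CartesianMonoidalCategory MonObj Opposite

namespace Pool.Agent.Y98.OO

open FR Pool.Agent.H707R3

variable {n : ℕ} {κ : Type} (β : St n κ)

/-- The functor of points. -/
def frFunctor (S : Scheme.{u}) : (Over S)ᵒᵖ ⥤ GrpCat.{u} where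
  obj T := GrpCat.of (FR β Γ(T.unop.left, ⊤))
  map φ := GrpCat.ofHom (FR.map φ.unop.left.appTop.hom)
  map_id T := by
    ext x <;> simp [FR.map]
  map_comp f g := by
    ext x <;> simp [FR.map] <;> rfl

/-- Index type of the coordinates. -/
abbrev Ix (n : ℕ) (κ : Type) : Type u := ULift.{u} (Fin n ⊕ κ)

/-- Affine space over `S`. -/
noncomputable def AA (_ : St n κ) (S : Scheme.{u}) : Over S := Over.mk (𝔸(Ix.{u} n κ; S) ↘ S)

open AffineSpace

variable {β}

/-- Coordinates vector. -/
def toVec {R : Type u} (x : FR β R) : Ix.{u} n κ → R := fun i => Sum.elim x.a x.p i.down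

/-- The point with coordinates the pullbacks of the coordinate functions. -/
noncomputable def ofHom' {S : Scheme.{u}} {T : Over S} (f : T ⟶ AA β S) : FR β Γ(T.left, ⊤) :=
  ⟨fun i => f.left.appTop (coord S ⟨Sum.inl i⟩), fun k => f.left.appTop (coord S ⟨Sum.inr k⟩)⟩

/-- The morphism with given coordinates. -/
noncomputable def toHom' {S : Scheme.{u}} {T : Over S} (x : FR β Γ(T.left, ⊤)) : T ⟶ AA β S :=
  Over.homMk (homOfVector T.hom (toVec x)) (homOfVector_over _ _)

lemma toHom'_ofHom' {S : Scheme.{u}} {T : Over S} (f : T ⟶ AA β S) : toHom' (ofHom' f) = f := by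
  ext1
  apply AffineSpace.hom_ext
  · exact (homOfVector_over _ _).trans (Over.w f).symm
  · rintro ⟨i⟩
    refine (homOfVector_appTop_coord _ _ _).trans ?_
    rcases i with i | k <;> rfl

lemma ofHom'_toHom' {S : Scheme.{u}} {T : Over S} (x : FR β Γ(T.left, ⊤)) :
    ofHom' (toHom' (S := S) x) = x := by
  apply FR.ext <;> funext i <;> exact (homOfVector_appTop_coord _ _ _)

variable (β)

/-- The affine space represents the functor of points. -/
noncomputable def frRep (S : Scheme.{u}) :
    (frFunctor β S ⋙ forget _).RepresentableBy (AA β S) where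
  homEquiv {T} :=
    { toFun := fun f => ofHom' f
      invFun := fun x => toHom' x
      left_inv := toHom'_ofHom'
      right_inv := ofHom'_toHom' }
  homEquiv_comp f g := by
    apply FR.ext <;> rfl

/-- The group scheme structure on affine space. -/
noncomputable instance frGrp (S : Scheme.{u}) : GrpObj (AA β S) :=
  GrpObj.ofRepresentableBy (AA β S) (frFunctor β S) (frRep β S)

variable {β}

lemma ofHom'_mul {S : Scheme.{u}} {T : Over S} (f g : T ⟶ AA β S) :
    ofHom' (f * g) = ofHom' f * ofHom' g :=
  ((yonedaGrpObjIsoOfRepresentableBy (AA β S) (frFunctor β S) (frRep β S)).hom.app (op T)).hom.map_mul f g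

lemma ofHom'_inj {S : Scheme.{u}} {T : Over S} {f g : T ⟶ AA β S} (h : ofHom' f = ofHom' g) :
    f = g := by
  rw [← toHom'_ofHom' f, ← toHom'_ofHom' g, h]

/-- The group of `T`-points. -/
noncomputable def ptEquiv {S : Scheme.{u}} (T : Over S) : (T ⟶ AA β S) ≃* FR β Γ(T.left, ⊤) where
  toFun := ofHom'
  invFun := toHom'
  left_inv := toHom'_ofHom'
  right_inv := ofHom'_toHom'
  map_mul' := ofHom'_mul

variable {K : Type u} [Field K]

/-- The group scheme over a field. -/
noncomputable abbrev GK (β : St n κ) (K : Type u) [Field K] : Over (Spec (.of K)) := AA β (Spec (.of K))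

/-- Constants. -/
noncomputable def cst (β : St n κ) (K : Type u) [Field K] : Γ(Spec (.of K), ⊤) →+* Γ((GK β K).left, ⊤) :=
  ((GK β K).hom.appTop).hom

lemma translate_cst (g : Pt (GK β K)) (r : Γ(Spec (.of K), ⊤)) :
    translate g (cst β K r) = cst β K r := by
  have h := Over.w (GrpObj.mulRight g).hom
  have h2 := congrArg (fun f : (GK β K).left ⟶ Spec (.of K) => f.appTop.hom r) h
  exact h2

/-- The coordinates of the universal point. -/
noncomputable def uni (β : St n κ) (K : Type u) [Field K] : FR β Γ((GK β K).left, ⊤) := ofHom' (𝟙 (GK β K))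

lemma ofHom'_mulRight (g : Pt (GK β K)) :
    ofHom' (GrpObj.mulRight g).hom = uni β K * FR.map (cst β K) (ofHom' g) := by
  have h : (GrpObj.mulRight g).hom = 𝟙 (GK β K) * (toUnit (GK β K) ≫ g) := by
    rw [GrpObj.mulRight_hom, Hom.mul_def]
  rw [h, ofHom'_mul]
  rfl

lemma map_translate_uni (g : Pt (GK β K)) :
    FR.map (translate g) (uni β K) = uni β K * FR.map (cst β K) (ofHom' g) := by
  rw [← ofHom'_mulRight]
  rfl

lemma cst_mem (g : Pt (GK β K)) (r : Γ(Spec (.of K), ⊤)) : cst β K r ∈ locUnip (translate g) :=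
  mem_locUnip_of_fix _ (translate_cst g r)

lemma a_mem (g : Pt (GK β K)) (i : Fin n) : (uni β K).a i ∈ locUnip (translate g) := by
  have h := congrFun (congrArg FR.a (map_translate_uni g)) i
  refine mem_locUnip_of_d _ ?_
  have e : translate g ((uni β K).a i) - (uni β K).a i = cst β K ((ofHom' g).a i) := by
    have : translate g ((uni β K).a i) = (uni β K).a i + cst β K ((ofHom' g).a i) := h
    rw [this]; ring
  rw [e]
  exact cst_mem g _

lemma p_mem (g : Pt (GK β K)) (k : κ) : (uni β K).p k ∈ locUnip (translate g) := by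
  have h := congrFun (congrArg FR.p (map_translate_uni g)) k
  refine mem_locUnip_of_d _ ?_
  have e : translate g ((uni β K).p k) - (uni β K).p k =
      cst β K ((ofHom' g).p k) + bf β (uni β K).a (fun i => cst β K ((ofHom' g).a i)) k := by
    have : translate g ((uni β K).p k) = (uni β K).p k + cst β K ((ofHom' g).p k) +
      bf β (uni β K).a (fun i => cst β K ((ofHom' g).a i)) k := h
    rw [this]; ring
  rw [e]
  refine add_mem (cst_mem g _) ?_
  unfold bf
  refine sum_mem fun i _ => sum_mem fun j _ => ?_
  exact mul_mem (intCast_mem _ _) (mul_mem (a_mem g i) (cst_mem g _))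

lemma coord_mem (g : Pt (GK β K)) (i : Ix.{u} n κ) :
    (coord (Spec (.of K)) i : Γ((GK β K).left, ⊤)) ∈ locUnip (translate g) := by
  obtain ⟨i⟩ := i
  rcases i with i | k
  · exact a_mem g i
  · exact p_mem g k

/-- The coordinate functions. -/
noncomputable def crd (β : St n κ) (K : Type u) [Field K] (i : Ix.{u} n κ) : Γ((GK β K).left, ⊤) :=
  coord (Spec (.of K)) i

/-- Evaluation of polynomials at the coordinate functions. -/
noncomputable def evl (β : St n κ) (K : Type u) [Field K] :
    MvPolynomial (Ix.{u} n κ) Γ(Spec (.of K), ⊤) →+* Γ((GK β K).left, ⊤) :=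
  MvPolynomial.eval₂Hom (cst β K) (crd β K)

lemma evl_C (r : Γ(Spec (.of K), ⊤)) : evl β K (MvPolynomial.C r) = cst β K r :=
  MvPolynomial.eval₂_C _ _ _

lemma evl_X (i : Ix.{u} n κ) : evl β K (MvPolynomial.X i) = crd β K i :=
  MvPolynomial.eval₂_X _ _ _

lemma isIso_appTop {X Y : Scheme.{u}} (f : X ≅ Y) : IsIso f.hom.appTop :=
  (inferInstance : IsIso (f.hom.app ⊤))

/-- Every regular function is a polynomial in the coordinates. -/
lemma evl_surjective : Function.Surjective (evl β K) := by
  have h := isoOfIsAffine_hom_appTop (n := Ix.{u} n κ) (S := Spec (.of K))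
  have hi : IsIso (isoOfIsAffine (Ix.{u} n κ) (Spec (.of K))).hom.appTop := isIso_appTop _
  have hb : Function.Bijective (isoOfIsAffine (Ix.{u} n κ) (Spec (.of K))).hom.appTop.hom :=
    (ConcreteCategory.isIso_iff_bijective
      (isoOfIsAffine (Ix.{u} n κ) (Spec (.of K))).hom.appTop).1 hi
  intro y
  obtain ⟨z, hz⟩ := hb.2 y
  rw [h] at hz
  exact ⟨_, hz⟩

theorem isUnipotentPt (g : Pt (GK β K)) : IsUnipotentPt g := by
  intro f
  obtain ⟨P, rfl⟩ := evl_surjective (β := β) (K := K) f
  have : evl β K P ∈ locUnip (translate g) := by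
    induction P using MvPolynomial.induction_on with
    | C r =>
      rw [evl_C]
      exact cst_mem g r
    | add p q hp hq =>
      rw [map_add]
      exact add_mem hp hq
    | mul_X p i hp =>
      rw [map_mul]
      refine mul_mem hp ?_
      rw [evl_X]
      exact coord_mem g i
  exact this

end Pool.Agent.Y98.OO
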