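import Mathlib
import Pool.Agent.Y98.OO.Sch
import Pool.Agent.H707R3.Orbit

/-!
Commutative subgroups of groups of class two have no open orbits.
-/

set_option autoImplicit false

universe u

open CategoryTheory AlgebraicGeometry MonoidalCategory CartesianMonoidalCategory MonObj

namespace Pool.Agent.Y98.OO

open Pool.Agent.H707R3 FR

/-- a larger subgroup has an open orbit too -/
theorem openOrbit_mono {K : Type u} [Field K] {G X : Over (Spec (.of K))} [GrpObj G] [ModObj G X]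
    {H H' : Subgroup (Pt G)} (hle : H ≤ H') (ho : HasOpenOrbit H X) : HasOpenOrbit H' X := by
  obtain ⟨x, U, hU⟩ := ho
  let U' : X.left.Opens := ⟨⋃ g : H', (actHom (X := X) ((g : Pt G)⁻¹)).left ⁻¹' (U : Set X.left),
    isOpen_iUnion fun g => U.isOpen.preimage (actHom (X := X) ((g : Pt G)⁻¹)).left.continuous⟩
  refine ⟨x, U', fun y => ?_⟩
  constructor
  · intro hy
    obtain ⟨g, hg⟩ := Set.mem_iUnion.1 hy
    have h1 : (act ((g : Pt G)⁻¹) y).point ∈ U := by
      rw [point_act]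
      exact hg
    obtain ⟨h, hh, e⟩ := (hU _).1 h1
    refine ⟨g * h, H'.mul_mem g.2 (hle hh), ?_⟩
    rw [act_mul, e, ← act_mul, mul_inv_cancel, act_one]
  · rintro ⟨h', hh', rfl⟩
    refine Set.mem_iUnion.2 ⟨⟨h', hh'⟩, ?_⟩
    show (actHom (X := X) (h'⁻¹)).left (act h' x).point ∈ U
    rw [← point_act, ← act_mul, inv_mul_cancel, act_one]
    exact (hU x).2 ⟨1, H.one_mem, act_one x⟩

/-- every commutative subgroup is contained in a maximal one -/
theorem exists_maximal {G : Type u} [Group G] (H : Subgroup G) (hH : ∀ a ∈ H, ∀ b ∈ H, a * b = b * a) :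
    ∃ M : Subgroup G, H ≤ M ∧ IsMaximalCommutative M := by
  obtain ⟨M, hM1, hM2⟩ := zorn_le_nonempty₀ {M : Subgroup G | ∀ a ∈ M, ∀ b ∈ M, a * b = b * a} (by
    intro c hc hch y hy
    refine ⟨sSup c, ?_, fun z hz => le_sSup hz⟩
    intro a ha b hb
    rw [Subgroup.mem_sSup_of_directedOn ⟨y, hy⟩ hch.directedOn] at ha hb
    obtain ⟨M1, h1, h2⟩ := ha
    obtain ⟨M2, h3, h4⟩ := hb
    rcases hch.total h1 h3 with h5 | h5
    · exact hc h3 a (h5 h2) b h4
    · exact hc h1 a h2 b (h5 h4)) H hH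
  refine ⟨M, hM1, hM2.prop, fun H' hH' hle => ?_⟩
  exact le_antisymm (hM2.le_of_ge hH' hle) hle

variable {n : ℕ} {κ : Type} {β : St n κ}

/-- the subgroup generated by a subgroup and the centre -/
def sz {R : Type u} [CommRing R] (H : Subgroup (FR β R)) : Subgroup (FR β R) where
  carrier := {x | ∃ h ∈ H, ∃ z ∈ zc β R, x = h * z}
  mul_mem' := by
    rintro _ _ ⟨h, hh, z, hz, rfl⟩ ⟨h', hh', z', hz', rfl⟩
    refine ⟨h * h', H.mul_mem hh hh', z * z', (zc β R).mul_mem hz hz', ?_⟩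
    calc h * z * (h' * z') = h * (z * h') * z' := by group
      _ = h * (h' * z) * z' := by rw [zc_comm hz]
      _ = _ := by group
  one_mem' := ⟨1, H.one_mem, 1, (zc β R).one_mem, (_root_.mul_one _).symm⟩
  inv_mem' := by
    rintro _ ⟨h, hh, z, hz, rfl⟩
    refine ⟨h⁻¹, H.inv_mem hh, z⁻¹, (zc β R).inv_mem hz, ?_⟩
    rw [mul_inv_rev, zc_comm ((zc β R).inv_mem hz)]

theorem le_sz {R : Type u} [CommRing R] (H : Subgroup (FR β R)) : H ≤ sz H :=
  fun h hh => ⟨h, hh, 1, (zc β R).one_mem, (_root_.mul_one _).symm⟩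

theorem zc_le_sz {R : Type u} [CommRing R] (H : Subgroup (FR β R)) : zc β R ≤ sz H :=
  fun z hz => ⟨1, H.one_mem, z, hz, (_root_.one_mul _).symm⟩

theorem sz_comm {R : Type u} [CommRing R] {H : Subgroup (FR β R)}
    (hH : ∀ a ∈ H, ∀ b ∈ H, a * b = b * a) : ∀ a ∈ sz H, ∀ b ∈ sz H, a * b = b * a := by
  rintro _ ⟨h, hh, z, hz, rfl⟩ _ ⟨h', hh', z', hz', rfl⟩
  calc h * z * (h' * z') = h * (z * h') * z' := by group
    _ = h * (h' * z) * z' := by rw [zc_comm hz]
    _ = (h * h') * (z * z') := by group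
    _ = (h' * h) * (z' * z) := by rw [hH h hh h' hh', zc_comm hz z']
    _ = h' * (h * z') * z := by group
    _ = h' * (z' * h) * z := by rw [zc_comm hz' h]
    _ = _ := by group

/-- **no open orbits** -/
theorem no_open (K : Type u) [Field K] [IsAlgClosed K] (hβ : NoSplit β K) (H : Subgroup (Pt (GK β K)))
    (hH : ∀ a ∈ H, ∀ b ∈ H, a * b = b * a) (X : Over (Spec (.of K))) [ModObj (GK β K) X]
    (hX : IsIrreducibleVariety X) (heff : IsEffective (GK β K) X) : ¬ HasOpenOrbit H X := by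
  intro ho
  let S : Scheme.{u} := Spec (.of K)
  let e : Pt (GK β K) ≃* FR β Γ(S, ⊤) := ptEquiv (𝟙_ (Over (Spec (.of K))))
  let r : Γ(S, ⊤) ≃+* K := (Scheme.ΓSpecIso (.of K)).commRingCatIsoToRingEquiv
  let H1 : Subgroup (FR β Γ(S, ⊤)) := sz (H.map e.toMonoidHom)
  have hH1 : ∀ a ∈ H1, ∀ b ∈ H1, a * b = b * a := by
    apply sz_comm
    rintro _ ⟨a, ha, rfl⟩ _ ⟨b, hb, rfl⟩
    rw [← map_mul, hH a ha b hb, map_mul]
  let H' : Subgroup (Pt (GK β K)) := H1.comap e.toMonoidHom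
  have hmem : ∀ g, g ∈ H' ↔ e g ∈ H1 := fun g => Iff.rfl
  have hle : H ≤ H' := fun h hh => (hmem h).2 (le_sz _ ⟨h, hh, rfl⟩)
  have hcomm : ∀ a ∈ H', ∀ b ∈ H', a * b = b * a := by
    intro a ha b hb
    apply e.injective
    rw [map_mul, map_mul]
    exact hH1 _ ha _ hb
  have hnorm : ∀ g, ∀ h ∈ H', g * h * g⁻¹ ∈ H' := by
    intro g h hh
    rw [hmem, map_mul, map_mul, map_inv]
    have h1 : e g * e h * (e g)⁻¹ = (e g * e h * (e g)⁻¹ * (e h)⁻¹) * e h := by group
    rw [h1]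
    exact H1.mul_mem (zc_le_sz _ (comm_mem _ _)) hh
  obtain ⟨L, h1, h2⟩ := exists_complement hX heff H' hcomm hnorm (openOrbit_mono hle ho)
  refine no_complement hβ r H1 (L.map e.toMonoidHom) (zc_le_sz _) hH1 ?_ ?_
  · intro g
    obtain ⟨h, hh, k, hk, hg⟩ := h1 (e.symm g)
    refine ⟨e h, hh, e k, ⟨k, hk, rfl⟩, ?_⟩
    rw [← map_mul, ← hg, MulEquiv.apply_symm_apply]
  · rintro _ ⟨k, hk, rfl⟩ hks
    have h3 := h2 k hk hks
    rw [h3]
    exact map_one e

theorem isLAG (K : Type u) [Field K] [Finite κ] : IsLinearAlgebraicGroup (GK β K) := by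
  refine ⟨?_, ?_, ?_⟩
  · exact inferInstanceAs (IsAffine 𝔸(Ix.{u} n κ; Spec (.of K)))
  · exact inferInstanceAs (LocallyOfFiniteType (𝔸(Ix.{u} n κ; Spec (.of K)) ↘ Spec (.of K)))
  · exact inferInstanceAs (IsReduced 𝔸(Ix.{u} n κ; Spec (.of K)))

theorem isConn (K : Type u) [Field K] : ConnectedSpace (GK β K).left := by
  have : IrreducibleSpace 𝔸(Ix.{u} n κ; Spec (.of K)) := inferInstance
  exact inferInstanceAs (ConnectedSpace 𝔸(Ix.{u} n κ; Spec (.of K)))

/-- an isomorphism of rings gives an isomorphism of groups -/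
def mapEquiv {R S : Type u} [CommRing R] [CommRing S] (r : R ≃+* S) : FR β R ≃* FR β S where
  toFun := FR.map (r : R →+* S)
  invFun := FR.map (r.symm : S →+* R)
  left_inv x := by
    apply FR.ext
    · funext i
      exact r.symm_apply_apply _
    · funext i
      exact r.symm_apply_apply _
  right_inv x := by
    apply FR.ext
    · funext i
      exact r.apply_symm_apply _
    · funext i
      exact r.apply_symm_apply _
  map_mul' := map_mul _

/-- the group of `K`-points -/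
theorem points (K : Type u) [Field K] : Nonempty (Pt (GK β K) ≃* FR β K) := by
  let e : Pt (GK β K) ≃* FR β Γ(Spec (.of K), ⊤) := ptEquiv (𝟙_ (Over (Spec (.of K))))
  let r : Γ(Spec (.of K), ⊤) ≃+* K := (Scheme.ΓSpecIso (.of K)).commRingCatIsoToRingEquiv
  exact ⟨e.trans (mapEquiv r)⟩

/-- the pairs `i < j` -/
abbrev Pr (n : ℕ) : Type := {x : Fin n × Fin n // x.1 < x.2}

/-- the free group of class two on `n` generators -/
def free (n : ℕ) : St n (Pr n) := fun t i j => if i = t.1.1 ∧ j = t.1.2 then 1 else 0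

theorem bf_free (n : ℕ) {R : Type u} [CommRing R] (x y : Fin n → R) (t : Pr n) :
    bf (free n) x y t = x t.1.1 * y t.1.2 := by
  classical
  unfold bf free
  rw [Finset.sum_eq_single t.1.1, Finset.sum_eq_single t.1.2]
  · simp
  · intro j _ hj
    simp [hj]
  · intro h
    exact absurd (Finset.mem_univ _) h
  · intro i _ hi
    refine Finset.sum_eq_zero fun j _ => ?_
    simp [hi]
  · intro h
    exact absurd (Finset.mem_univ _) h

/-- isotropic vectors are proportional -/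
theorem free_isot {n : ℕ} {K : Type u} [Field K] {V : Submodule K (Fin n → K)} (hV : Isot (free n) V)
    {x y : Fin n → K} (hx : x ∈ V) (hy : y ∈ V) (i j : Fin n) : x i * y j = y i * x j := by
  rcases lt_trichotomy i j with h | h | h
  · have h1 := hV x hx y hy ⟨(i, j), h⟩
    rwa [bf_free, bf_free] at h1
  · rw [h, mul_comm]
  · have h1 := hV x hx y hy ⟨(j, i), h⟩
    rw [bf_free, bf_free] at h1
    linear_combination -h1

theorem free_noSplit (K : Type u) [Field K] (n : ℕ) (hn : 3 ≤ n) : NoSplit (free n) K := by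
  intro V W hV hW htop
  have hdec : ∀ i : Fin n, ∃ v ∈ V, ∃ w ∈ W, v + w = (Pi.single i 1 : Fin n → K) := by
    intro i
    have h1 : (Pi.single i 1 : Fin n → K) ∈ V ⊔ W := by rw [htop]; trivial
    exact Submodule.mem_sup.1 h1
  obtain ⟨v0, hv0, w0, hw0, e0⟩ := hdec ⟨0, by omega⟩
  obtain ⟨v1, hv1, w1, hw1, e1⟩ := hdec ⟨1, by omega⟩
  obtain ⟨v2, hv2, w2, hw2, e2⟩ := hdec ⟨2, by omega⟩
  have f : ∀ (i : Fin n) (v w : Fin n → K), v + w = (Pi.single i 1 : Fin n → K) → ∀ j, v j + w j =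
      (if j = i then 1 else 0) := by
    intro i v w h j
    have h1 := congrFun h j
    rw [Pi.add_apply, Pi.single_apply] at h1
    exact h1
  have a0 := f _ _ _ e0
  have a1 := f _ _ _ e1
  have a2 := f _ _ _ e2
  have p : ∀ {x y : Fin n → K}, x ∈ V → y ∈ V → ∀ i j, x i * y j = y i * x j :=
    fun hx hy i j => free_isot hV hx hy i j
  have q : ∀ {x y : Fin n → K}, x ∈ W → y ∈ W → ∀ i j, x i * y j = y i * x j :=
    fun hx hy i j => free_isot hW hx hy i j
  -- the determinant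
  set i0 : Fin n := ⟨0, by omega⟩ with hi0
  set i1 : Fin n := ⟨1, by omega⟩ with hi1
  set i2 : Fin n := ⟨2, by omega⟩ with hi2
  have d01 : i0 ≠ i1 := by rw [hi0, hi1]; intro h; simp at h
  have d02 : i0 ≠ i2 := by rw [hi0, hi2]; intro h; simp at h
  have d12 : i1 ≠ i2 := by rw [hi1, hi2]; intro h; simp at h
  have det : ∀ x y z : Fin n → K, (∀ i j, x i * y j = y i * x j) →
      x i0 * (y i1 * z i2 - y i2 * z i1) - x i1 * (y i0 * z i2 - y i2 * z i0) +
        x i2 * (y i0 * z i1 - y i1 * z i0) = 0 := by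
    intro x y z h
    linear_combination z i2 * h i0 i1 - z i1 * h i0 i2 + z i0 * h i1 i2
  have det' : ∀ x y z : Fin n → K, (∀ i j, y i * z j = z i * y j) →
      x i0 * (y i1 * z i2 - y i2 * z i1) - x i1 * (y i0 * z i2 - y i2 * z i0) +
        x i2 * (y i0 * z i1 - y i1 * z i0) = 0 := by
    intro x y z h
    linear_combination x i0 * h i1 i2 - x i1 * h i0 i2 + x i2 * h i0 i1
  have det'' : ∀ x y z : Fin n → K, (∀ i j, x i * z j = z i * x j) →
      x i0 * (y i1 * z i2 - y i2 * z i1) - x i1 * (y i0 * z i2 - y i2 * z i0) +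
        x i2 * (y i0 * z i1 - y i1 * z i0) = 0 := by
    intro x y z h
    linear_combination - y i2 * h i0 i1 + y i1 * h i0 i2 - y i0 * h i1 i2
  have k1 := det v0 v1 v2 (p hv0 hv1)
  have k2 := det v0 v1 w2 (p hv0 hv1)
  have k3 := det'' v0 w1 v2 (p hv0 hv2)
  have k4 := det' w0 v1 v2 (p hv1 hv2)
  have k5 := det' v0 w1 w2 (q hw1 hw2)
  have k6 := det'' w0 v1 w2 (q hw0 hw2)
  have k7 := det w0 w1 v2 (q hw0 hw1)
  have k8 := det w0 w1 w2 (q hw0 hw1)
  have b00 := a0 i0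
  have b01 := a0 i1
  have b02 := a0 i2
  have b10 := a1 i0
  have b11 := a1 i1
  have b12 := a1 i2
  have b20 := a2 i0
  have b21 := a2 i1
  have b22 := a2 i2
  rw [if_pos rfl] at b00 b11 b22
  rw [if_neg d01.symm] at b01
  rw [if_neg d02.symm] at b02
  rw [if_neg d01] at b10
  rw [if_neg d12.symm] at b12
  rw [if_neg d02] at b20
  rw [if_neg d12] at b21
  have hsum : (v0 i0 + w0 i0) * ((v1 i1 + w1 i1) * (v2 i2 + w2 i2) - (v1 i2 + w1 i2) * (v2 i1 + w2 i1)) -
      (v0 i1 + w0 i1) * ((v1 i0 + w1 i0) * (v2 i2 + w2 i2) - (v1 i2 + w1 i2) * (v2 i0 + w2 i0)) +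
      (v0 i2 + w0 i2) * ((v1 i0 + w1 i0) * (v2 i1 + w2 i1) - (v1 i1 + w1 i1) * (v2 i0 + w2 i0)) = 0 := by
    linear_combination k1 + k2 + k3 + k4 + k5 + k6 + k7 + k8
  rw [b00, b01, b02, b10, b11, b12, b20, b21, b22] at hsum
  simp at hsum

end Pool.Agent.Y98.OO
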